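import Pool.Agent.H956GW.Stmt

set_option autoImplicit false

open scoped Manifold Topology

namespace Pool.Agent.Y348.GW

open H956GW

section

variable {H : Type} [CommRing H] [Algebra ℂ H] (n : ℕ) (dg : ℕ → Submodule ℂ H)

/-- The classes of degree at most `p`. -/
def filt (dg : ℕ → Submodule ℂ H) (p : ℤ) : Submodule ℂ H := ⨆ (k : ℕ) (_ : 2 * (k : ℤ) ≤ p), dg k

theorem le_filt {dg : ℕ → Submodule ℂ H} {k : ℕ} {p : ℤ} (h : 2 * (k : ℤ) ≤ p) :
    dg k ≤ filt dg p :=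
  le_iSup₂_of_le (f := fun (k : ℕ) (_ : 2 * (k : ℤ) ≤ p) => dg k) k h le_rfl

theorem filt_zero : filt dg 0 = dg 0 := by
  apply le_antisymm
  · refine iSup₂_le fun k hk => ?_
    have : k = 0 := by omega
    rw [this]
  · exact le_filt (by norm_num)

variable {n dg}

theorem adjoin_le (h0 : (1 : H) ∈ dg 0) (hmul : ∀ i j, ∀ x ∈ dg i, ∀ y ∈ dg j, x * y ∈ dg (i + j))
    {x : H} (hx : x ∈ Algebra.adjoin ℂ (dg 1 : Set H)) : x ∈ ⨆ k, dg k := by
  have hx' : x ∈ Submodule.span ℂ (Submonoid.closure (dg 1 : Set H) : Set H) := by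
    rw [← Algebra.adjoin_eq_span]; exact hx
  have h1 : Submodule.span ℂ (Submonoid.closure (dg 1 : Set H) : Set H) ≤ ⨆ k, dg k := by
    refine Submodule.span_le.2 ?_
    intro y hy
    have : ∃ k, y ∈ dg k := by
      induction hy using Submonoid.closure_induction with
      | mem x hx => exact ⟨1, hx⟩
      | one => exact ⟨0, h0⟩
      | mul x y _ _ hx hy =>
        obtain ⟨k, hk⟩ := hx
        obtain ⟨k', hk'⟩ := hy
        exact ⟨k + k', hmul _ _ _ hk _ hk'⟩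
    obtain ⟨k, hk⟩ := this
    exact Submodule.mem_iSup_of_mem k hk
  exact h1 hx'

theorem mem_filt_of_integral (h0 : (1 : H) ∈ dg 0)
    (hmul : ∀ i j, ∀ x ∈ dg i, ∀ y ∈ dg j, x * y ∈ dg (i + j))
    (hbot : ∀ k, n < k → ∀ x ∈ dg k, x = 0) (I : H →ₗ[ℂ] ℂ)
    (hI : ∀ k, k ≠ n → ∀ x ∈ dg k, I x = 0) (hI' : ∀ x ∈ dg n, I x = 0 → x = 0)
    {x : H} (hx : x ∈ Algebra.adjoin ℂ (dg 1 : Set H)) (hx0 : I x = 0) :
    x ∈ filt dg (2 * (n : ℤ) - 2) := by
  have h1 : ⨆ k, dg k ≤ filt dg (2 * (n : ℤ) - 2) ⊔ dg n := by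
    refine iSup_le fun k => ?_
    rcases Nat.lt_trichotomy k n with h | h | h
    · exact (le_filt (by omega)).trans le_sup_left
    · rw [h]; exact le_sup_right
    · intro y hy
      rw [hbot k h y hy]
      exact Submodule.zero_mem _
  obtain ⟨f, hf, g, hg, rfl⟩ := Submodule.mem_sup.1 (h1 (adjoin_le h0 hmul hx))
  have h2 : filt dg (2 * (n : ℤ) - 2) ≤ LinearMap.ker I := by
    refine iSup₂_le fun k hk => ?_
    intro y hy
    exact hI k (by omega) y hy
  have h3 : I f = 0 := h2 hf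
  rw [map_add, h3, zero_add] at hx0
  rw [hI' g hg hx0, add_zero]
  exact hf

/-- The criterion: if the subalgebra generated by `H²` does not satisfy Poincaré duality, the
variation with connection `d + (cup product)` is not locally equivalent to a subquotient of a
semisimple variation. -/
theorem criterion.{u₁, u₂, u₃, u₄} [Module.Finite ℂ H] (hd0 : dg 0 = Submodule.span ℂ {1})
    (hmul : ∀ i j, ∀ x ∈ dg i, ∀ y ∈ dg j, x * y ∈ dg (i + j))
    (hbot : ∀ k, n < k → ∀ x ∈ dg k, x = 0) (I : H →ₗ[ℂ] ℂ)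
    (hI : ∀ k, k ≠ n → ∀ x ∈ dg k, I x = 0) (hI' : ∀ x ∈ dg n, I x = 0 → x = 0)
    (hPD : ∀ x : H, (∀ y : H, I (x * y) = 0) → x = 0)
    (w : H) (hw : w ∈ dg 1) (hwn : I (w ^ n) ≠ 0)
    (b : H) (hb : b ∈ Algebra.adjoin ℂ (dg 1 : Set H)) (hb0 : b ≠ 0)
    (hbI : ∀ a ∈ Algebra.adjoin ℂ (dg 1 : Set H), I (a * b) = 0)
    (B : Type) [AddCommGroup B] (g : GWNumbers B H) (hg : g.IsAspherical I)
    (A : H → H → H → H) (hA : IsGWConnection I (dg 1) g.prepotential A)
    (S : Type) [NormedAddCommGroup S] [NormedSpace ℂ S] (c : S ≃ₗ[ℂ] dg 1) (t₀ : S) :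
    ¬ IsLocallySubquotientOfSemisimple.{u₁, u₂, u₃, u₄} (fun t v h => A (c t) (c v) h)
      (filt dg) t₀ := by
  rintro ⟨G, _, _, M, _, _, _, _, Γ, _, _, E, _, _, E', _, _, X, Y, m₀, hX, hY, hloc⟩
  have h10 : (1 : H) ∈ dg 0 := by rw [hd0]; exact Submodule.mem_span_singleton_self _
  have : FiniteDimensional ℂ E' := by
    obtain ⟨-, T, -⟩ := hloc
    exact LinearEquiv.finiteDimensional (T t₀)
  let c' : S →ₗ[ℂ] H := (dg 1).subtype ∘ₗ c.toLinearMap
  have hc' : ∀ v, c' v ∈ dg 1 := fun v => (c v).2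
  have hrange : Set.range c' = (dg 1 : Set H) := by
    ext x
    constructor
    · rintro ⟨v, rfl⟩; exact hc' v
    · intro hx
      refine ⟨c.symm ⟨x, hx⟩, ?_⟩
      change ((c (c.symm ⟨x, hx⟩) : dg 1) : H) = x
      rw [c.apply_symm_apply]
  have hpow : ∀ v k, c' v ^ k ∈ dg k := by
    intro v k
    induction k with
    | zero => rw [pow_zero]; exact h10
    | succ k ih => rw [pow_succ]; exact hmul _ _ _ ih _ (hc' v)
  obtain ⟨w', hw'⟩ : ∃ v, c' v = w := by
    have : w ∈ Set.range c' := by rw [hrange]; exact hw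
    exact this
  refine not_locallyEquivalent c' I n (fun v k hk => hI k (by omega) _ (hpow v k))
    (fun v k hk => hbot k hk _ (hpow v k)) (w := w') (by rw [hw']; exact hwn) b
    (by rw [hrange]; exact hb) hb0 Set.univ _
    (fun t _ v h => connection_eq g hg hPD hA (hc' t) (hc' v) h) (filt dg)
    (p₀ := 0) (p₁ := 2 * (n : ℤ) - 2) (by rw [filt_zero, hd0]) ?_ ?_ t₀ Y (hX.subquotient hY) m₀
    hloc
  · refine iSup₂_le fun k hk => ?_
    intro y hy
    exact hI k (by omega) y hy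
  · intro a ha
    rw [hrange] at ha
    exact mem_filt_of_integral h10 hmul hbot I hI hI' (Subalgebra.mul_mem _ ha hb) (hbI a ha)

end

end Pool.Agent.Y348.GW
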