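import Mathlib

/-!
# Invariant forms on filiform nilpotent Lie groups of dimension `N`

Basis `e 0, …, e (N-1)` of left-invariant 1-forms, `d (e 0) = d (e 1) = 0`,
`d (e k) = e 0 ∧ e (k - 1)` for `2 ≤ k < N`.
-/

set_option autoImplicit false

namespace Pool.Agent.Y348.GW

open ExteriorAlgebra

/-- Left-invariant complex 1-forms. -/
abbrev V (N : ℕ) : Type := Fin N → ℂ

/-- Left-invariant complex differential forms. -/
abbrev Forms (N : ℕ) : Type := ExteriorAlgebra ℂ (V N)

/-- The coordinate 1-form with index `k` (zero if `k ≥ N`). -/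
def b (N k : ℕ) : V N := fun i => if i.val = k then 1 else 0

variable {N : ℕ}

theorem b_fin (i : Fin N) : b N i.val = Pi.single i 1 := by
  funext j
  unfold b
  by_cases h : j = i
  · subst h; simp
  · have h' : j.val ≠ i.val := fun h2 => h (Fin.ext h2)
    simp [h, h']

theorem b_zero {k : ℕ} (hk : N ≤ k) : b N k = 0 := by
  funext j
  unfold b
  have : j.val ≠ k := by have := j.2; omega
  simp [this]

/-- The basic 1-forms. -/
noncomputable def e (N k : ℕ) : Forms N := ι ℂ (b N k)

theorem e_zero {k : ℕ} (hk : N ≤ k) : e N k = 0 := by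
  rw [e, b_zero hk, map_zero]

/-- The linear map `e k ↦ e (k - 1)` for `2 ≤ k`, `e 0, e 1 ↦ 0`. -/
noncomputable def shift (N : ℕ) : V N →ₗ[ℂ] V N :=
  (Pi.basisFun ℂ (Fin N)).constr ℂ (fun k => if 2 ≤ k.val then b N (k.val - 1) else 0)

theorem shift_b {k : ℕ} (hk : k < N) : shift N (b N k) = if 2 ≤ k then b N (k - 1) else 0 := by
  have h := (Pi.basisFun ℂ (Fin N)).constr_basis ℂ
    (fun k => if 2 ≤ k.val then b N (k.val - 1) else 0) ⟨k, hk⟩
  rw [Pi.basisFun_apply, ← b_fin] at h
  exact h

/-- Auxiliary: the linear map `v ↦ (-v, e₀ ∧ N v; 0, v)` into `2 × 2` matrices of forms. -/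
noncomputable def matGen (N : ℕ) : V N →ₗ[ℂ] Matrix (Fin 2) (Fin 2) (Forms N) where
  toFun v := !![-ι ℂ v, e N 0 * ι ℂ (shift N v); 0, ι ℂ v]
  map_add' v w := by
    ext i j; fin_cases i <;> fin_cases j <;> simp [mul_add, add_comm]
  map_smul' c v := by
    ext i j; fin_cases i <;> fin_cases j <;> simp

theorem ι_mul_comm (v w : V N) : ι ℂ v * ι ℂ w = -(ι ℂ w * ι ℂ v) :=
  eq_neg_of_add_eq_zero_left (ι_add_mul_swap v w)

theorem matGen_sq (v : V N) : matGen N v * matGen N v = 0 := by
  have h1 : ι ℂ v * ι ℂ v = 0 := ι_sq_zero v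
  have h2 : ι ℂ v * (e N 0 * ι ℂ (shift N v)) = e N 0 * ι ℂ (shift N v) * ι ℂ v := by
    rw [e, ← mul_assoc, ι_mul_comm v, neg_mul, mul_assoc, ι_mul_comm v, mul_neg, neg_neg, mul_assoc]
  ext i j
  fin_cases i <;> fin_cases j <;> simp [matGen, Matrix.mul_apply, Fin.sum_univ_two, h1]
  rw [h2]
  simp

/-- Auxiliary: the algebra homomorphism `x ↦ (x̂, d x; 0, x)`. -/
noncomputable def matHom (N : ℕ) : Forms N →ₐ[ℂ] Matrix (Fin 2) (Fin 2) (Forms N) :=
  ExteriorAlgebra.lift ℂ ⟨matGen N, matGen_sq⟩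

/-- The sign involution: `(-1) ^ k` on forms of degree `k`. -/
noncomputable abbrev inv (N : ℕ) : Forms N →ₐ[ℂ] Forms N := CliffordAlgebra.involute

/-- The exterior derivative of left-invariant forms. -/
noncomputable def d (N : ℕ) : Forms N →ₗ[ℂ] Forms N where
  toFun x := matHom N x 0 1
  map_add' x y := by simp
  map_smul' c x := by simp

theorem matHom_ι (v : V N) :
    matHom N (ι ℂ v) = !![-ι ℂ v, e N 0 * ι ℂ (shift N v); 0, ι ℂ v] := by
  rw [matHom, lift_ι_apply]; rfl

theorem matHom_eq (x : Forms N) :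
    matHom N x 0 0 = inv N x ∧ matHom N x 1 0 = 0 ∧ matHom N x 1 1 = x := by
  induction x using ExteriorAlgebra.induction with
  | algebraMap r =>
    have : matHom N (algebraMap ℂ (Forms N) r) = algebraMap ℂ _ r := (matHom N).commutes r
    rw [this, Matrix.algebraMap_matrix_apply, Matrix.algebraMap_matrix_apply,
      Matrix.algebraMap_matrix_apply]
    simp
  | ι v => rw [matHom_ι]; simp
  | mul a b ha hb =>
    rw [map_mul]
    simp only [Matrix.mul_apply, Fin.sum_univ_two, ha.1, ha.2.1, ha.2.2, hb.1, hb.2.1, hb.2.2]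
    simp
  | add a b ha hb =>
    rw [map_add]
    simp only [Matrix.add_apply, ha.1, ha.2.1, ha.2.2, hb.1, hb.2.1, hb.2.2]
    simp

@[simp] theorem d_ι (v : V N) : d N (ι ℂ v) = e N 0 * ι ℂ (shift N v) := by
  change matHom N (ι ℂ v) 0 1 = _
  rw [matHom_ι]; simp

@[simp] theorem d_algebraMap (r : ℂ) : d N (algebraMap ℂ (Forms N) r) = 0 := by
  change matHom N (algebraMap ℂ (Forms N) r) 0 1 = _
  have : matHom N (algebraMap ℂ (Forms N) r) = algebraMap ℂ _ r := (matHom N).commutes r
  rw [this, Matrix.algebraMap_matrix_apply]; simp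

@[simp] theorem d_one : d N 1 = 0 := by
  have := d_algebraMap (N := N) 1
  rwa [map_one] at this

/-- The Leibniz rule. -/
theorem d_mul (x y : Forms N) : d N (x * y) = inv N x * d N y + d N x * y := by
  change matHom N (x * y) 0 1 = inv N x * matHom N y 0 1 + matHom N x 0 1 * y
  rw [map_mul, Matrix.mul_apply, Fin.sum_univ_two, (matHom_eq x).1, (matHom_eq y).2.2]

theorem d_inv (x : Forms N) : d N (inv N x) = -inv N (d N x) := by
  induction x using ExteriorAlgebra.induction with
  | algebraMap r => simp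
  | ι v => simp [e]
  | mul a b ha hb =>
    rw [map_mul, d_mul, d_mul, ha, hb]
    simp only [map_add, map_mul, CliffordAlgebra.involute_involute]
    noncomm_ring
  | add a b ha hb => simp only [map_add, ha, hb]; abel

theorem d_e {k : ℕ} (hk : k < N) : d N (e N k) = if 2 ≤ k then e N 0 * e N (k - 1) else 0 := by
  rw [e, d_ι, shift_b hk]
  split_ifs
  · rfl
  · rw [map_zero, mul_zero]

theorem d_e0 : d N (e N 0) = 0 := by
  rcases Nat.eq_zero_or_pos N with h | h
  · rw [e_zero (by omega), map_zero]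
  · rw [d_e h]; rfl

theorem e_mul_e (i : ℕ) : e N i * e N i = 0 := ι_sq_zero _

theorem e_comm (i j : ℕ) : e N i * e N j = -(e N j * e N i) := ι_mul_comm _ _

/-- `v x = x̂ v`. -/
theorem ι_mul (v : V N) (x : Forms N) : ι ℂ v * x = inv N x * ι ℂ v := by
  induction x using ExteriorAlgebra.induction with
  | algebraMap r => rw [AlgHom.commutes]; exact (Algebra.commutes r _).symm
  | ι w => rw [ι_mul_comm, CliffordAlgebra.involute_ι, neg_mul]
  | mul a b ha hb => rw [← mul_assoc, ha, mul_assoc, hb, ← mul_assoc, map_mul]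
  | add a b ha hb => rw [mul_add, ha, hb, map_add, add_mul]

theorem e0_mul_d (x : Forms N) : e N 0 * d N x = 0 := by
  induction x using ExteriorAlgebra.induction with
  | algebraMap r => simp
  | ι v => rw [d_ι, ← mul_assoc, e_mul_e, zero_mul]
  | mul a b ha hb =>
    rw [d_mul, mul_add, ← mul_assoc, ← mul_assoc, ha, zero_mul, add_zero, e, ι_mul, mul_assoc,
      ← e, hb, mul_zero]
  | add a b ha hb => rw [map_add, mul_add, ha, hb, add_zero]

theorem d_d (x : Forms N) : d N (d N x) = 0 := by
  induction x using ExteriorAlgebra.induction with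
  | algebraMap r => simp
  | ι v =>
    rw [d_ι, d_mul, d_e0, zero_mul, add_zero, e, CliffordAlgebra.involute_ι, neg_mul, ← e,
      e0_mul_d, neg_zero]
  | mul a b ha hb =>
    rw [d_mul, map_add, d_mul, d_mul, ha, hb, d_inv]
    simp
  | add a b ha hb => rw [map_add, map_add, ha, hb, add_zero]

/-- Even forms are central. -/
theorem even_comm {x : Forms N} (hx : inv N x = x) (y : Forms N) : x * y = y * x := by
  induction y using ExteriorAlgebra.induction with
  | algebraMap r => exact (Algebra.commutes r x).symm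
  | ι v => rw [ι_mul, hx]
  | mul a b ha hb => rw [← mul_assoc, ha, mul_assoc, hb, ← mul_assoc]
  | add a b ha hb => rw [mul_add, ha, hb, add_mul]

theorem inv_e (i : ℕ) : inv N (e N i) = -e N i := CliffordAlgebra.involute_ι _

theorem d_e_mul (i : ℕ) (x : Forms N) : d N (e N i * x) = d N (e N i) * x - e N i * d N x := by
  rw [d_mul, inv_e]; noncomm_ring

end Pool.Agent.Y348.GW
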