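import Pool.Agent.Y348.GW.F1

set_option autoImplicit false

namespace Pool.Agent.Y348.GW

open ExteriorAlgebra Set Set.powersetCard

variable {N : ℕ}

/-- The coefficient of `e₀ ∧ e₁ ∧ ⋯ ∧ e_{N-1}`. -/
noncomputable def top (N : ℕ) : Forms N →ₗ[ℂ] ℂ :=
  liftAlternating (Pi.single N (Matrix.detRowAlternating (n := Fin N) (R := ℂ)))

theorem top_ιMulti_self (v : Fin N → V N) : top N (ιMulti ℂ N v) = Matrix.det (Matrix.of v) := by
  rw [top, liftAlternating_apply_ιMulti, Pi.single_eq_same]
  rfl

theorem top_ιMulti {n : ℕ} (hn : n ≠ N) (v : Fin n → V N) : top N (ιMulti ℂ n v) = 0 := by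
  rw [top, liftAlternating_apply_ιMulti, Pi.single_eq_of_ne hn]
  rfl

theorem top_deg {n : ℕ} (hn : n ≠ N) {x : Forms N} (hx : x ∈ ⋀[ℂ]^n (V N)) : top N x = 0 := by
  rw [← ιMulti_span_fixedDegree] at hx
  induction hx using Submodule.span_induction with
  | mem x hx => obtain ⟨v, rfl⟩ := hx; exact top_ιMulti hn v
  | zero => exact map_zero _
  | add x y _ _ hx hy => rw [map_add, hx, hy, add_zero]
  | smul c x _ hx => rw [map_smul, hx, smul_zero]

/-- The monomial basis. -/
noncomputable abbrev bE (N : ℕ) : Module.Basis (Finset (Fin N)) ℂ (Forms N) :=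
  (Pi.basisFun ℂ (Fin N)).ExteriorAlgebra

theorem bE_mem (s : Finset (Fin N)) : bE N s ∈ ⋀[ℂ]^s.card (V N) := by
  rw [bE, basis_apply]
  exact ιMulti_range ℂ _ ⟨_, rfl⟩

instance : Module.Finite ℂ (Forms N) := Module.Finite.of_basis (bE N)

theorem top_bE_univ : top N (bE N Finset.univ) ≠ 0 := by
  have hc : (Finset.univ : Finset (Fin N)).card = N := by simp
  rw [bE, basis_apply_ofCard (Pi.basisFun ℂ (Fin N)) hc]
  rw [ιMulti_family, top_ιMulti_self]
  have hli : LinearIndependent ℂ ((Pi.basisFun ℂ (Fin N)) ∘ (ofFinEmbEquiv.symm (ofCard hc))) :=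
    (Pi.basisFun ℂ (Fin N)).linearIndependent.comp _ (ofFinEmbEquiv.symm (ofCard hc)).injective
  have := (Matrix.linearIndependent_rows_iff_isUnit (K := ℂ)
    (A := ((Pi.basisFun ℂ (Fin N)) ∘ (ofFinEmbEquiv.symm (ofCard hc)) : Fin N → Fin N → ℂ))).1 hli
  rw [Matrix.isUnit_iff_isUnit_det] at this
  exact this.ne_zero

theorem top_bE_mul (T S : Finset (Fin N)) (h : T ≠ S) : top N (bE N T * bE N Sᶜ) = 0 := by
  by_cases hd : Disjoint T Sᶜ
  · have h1 := basis_mul_of_disjoint (Pi.basisFun ℂ (Fin N)) (ofCard (rfl : T.card = T.card))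
      (ofCard (rfl : (Sᶜ).card = (Sᶜ).card)) hd
    change bE N T * bE N Sᶜ = _ at h1
    rw [h1, Units.smul_def, map_zsmul]
    have h2 : (disjUnion (s := ofCard (rfl : T.card = T.card))
      (t := ofCard (rfl : (Sᶜ).card = (Sᶜ).card)) hd : Finset (Fin N)).card = T.card + (Sᶜ).card :=
      by simp [Finset.card_union_of_disjoint hd]
    have h3 : T.card + (Sᶜ).card ≠ N := by
      rw [← Finset.card_union_of_disjoint hd]
      intro h6
      have : T ∪ Sᶜ = Finset.univ := by
        apply Finset.eq_univ_of_card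
        rw [h6]; simp
      apply h
      apply Finset.Subset.antisymm
      · intro i hi
        by_contra hiS
        exact (Finset.disjoint_left.1 hd) hi (Finset.mem_compl.2 hiS)
      · intro i hi
        have : i ∈ T ∪ Sᶜ := by rw [this]; exact Finset.mem_univ i
        rcases Finset.mem_union.1 this with h | h
        · exact h
        · exact absurd hi (Finset.mem_compl.1 h)
    have h4 := bE_mem (disjUnion (s := ofCard (rfl : T.card = T.card))
      (t := ofCard (rfl : (Sᶜ).card = (Sᶜ).card)) hd : Finset (Fin N))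
    rw [h2] at h4
    rw [top_deg h3 h4, smul_zero]
  · have h1 := basis_mul_of_not_disjoint (Pi.basisFun ℂ (Fin N)) (ofCard (rfl : T.card = T.card))
      (ofCard (rfl : (Sᶜ).card = (Sᶜ).card)) hd
    change bE N T * bE N Sᶜ = _ at h1
    rw [h1, map_zero]

theorem top_bE_mul_self (S : Finset (Fin N)) : top N (bE N S * bE N Sᶜ) ≠ 0 := by
  have hd : Disjoint S Sᶜ := disjoint_compl_right
  have h1 := basis_mul_of_disjoint (Pi.basisFun ℂ (Fin N)) (ofCard (rfl : S.card = S.card))
      (ofCard (rfl : (Sᶜ).card = (Sᶜ).card)) hd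
  change bE N S * bE N Sᶜ = _ at h1
  rw [h1, Units.smul_def, map_zsmul]
  have h2 : (disjUnion (s := ofCard (rfl : S.card = S.card))
      (t := ofCard (rfl : (Sᶜ).card = (Sᶜ).card)) hd : Finset (Fin N)) = Finset.univ := by
    simp
  rw [h2]
  rw [zsmul_eq_mul]
  refine mul_ne_zero ?_ top_bE_univ
  exact_mod_cast (Units.ne_zero _)

/-- The wedge pairing is nondegenerate. -/
theorem eq_zero_of_top_mul (x : Forms N) (h : ∀ y, top N (x * y) = 0) : x = 0 := by
  apply (bE N).ext_elem
  intro S
  have h1 := h (bE N Sᶜ)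
  rw [← (bE N).sum_repr x, Finset.sum_mul, map_sum, Finset.sum_eq_single S] at h1
  · rw [smul_mul_assoc, map_smul, smul_eq_mul] at h1
    rw [map_zero]
    exact (mul_eq_zero.1 h1).resolve_right (top_bE_mul_self S)
  · intro T _ hT
    rw [smul_mul_assoc, map_smul, top_bE_mul T S hT, smul_zero]
  · intro h; exact absurd (Finset.mem_univ S) h

theorem inv_deg {n : ℕ} {x : Forms N} (hx : x ∈ ⋀[ℂ]^n (V N)) : inv N x = (-1 : ℂ) ^ n • x := by
  rw [← ιMulti_span_fixedDegree] at hx
  induction hx using Submodule.span_induction with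
  | mem x hx =>
    obtain ⟨v, rfl⟩ := hx
    have : ∀ (n : ℕ) (v : Fin n → V N), inv N (ιMulti ℂ n v) = (-1 : ℂ) ^ n • ιMulti ℂ n v := by
      intro n
      induction n with
      | zero => intro v; simp
      | succ n ih =>
        intro v
        rw [ιMulti_succ_apply, map_mul, ih, CliffordAlgebra.involute_ι, pow_succ]
        simp
    exact this n v
  | zero => simp
  | add x y _ _ hx hy => rw [map_add, hx, hy, smul_add]
  | smul c x _ hx => rw [map_smul, hx, smul_comm]

/-- `top` does not change under the sign involution if `N` is even. -/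
theorem top_inv (hN : Even N) (x : Forms N) : top N (inv N x) = top N x := by
  have : top N ∘ₗ (inv N).toLinearMap = top N := by
    apply (bE N).ext
    intro S
    change top N (inv N (bE N S)) = top N (bE N S)
    rw [inv_deg (bE_mem S), map_smul]
    by_cases h6 : S.card = N
    · have h1 : (-1 : ℂ) ^ S.card = 1 := by rw [h6]; exact hN.neg_one_pow
      rw [h1, one_smul]
    · rw [top_deg h6 (bE_mem S), smul_zero]
  exact LinearMap.congr_fun this x

theorem top_odd (hN : Even N) {x : Forms N} (hx : inv N x = -x) : top N x = 0 := by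
  have := top_inv hN x
  rw [hx, map_neg] at this
  exact self_eq_neg.1 this.symm

theorem ι_mem (v : V N) : ι ℂ v ∈ ⋀[ℂ]^1 (V N) := by
  rw [exteriorPower, pow_one]; exact LinearMap.mem_range_self _ _

theorem e_mem (k : ℕ) : e N k ∈ ⋀[ℂ]^1 (V N) := ι_mem _

theorem mul_mem_deg {m n : ℕ} {x y : Forms N} (hx : x ∈ ⋀[ℂ]^m (V N)) (hy : y ∈ ⋀[ℂ]^n (V N)) :
    x * y ∈ ⋀[ℂ]^(m + n) (V N) := by
  rw [exteriorPower, pow_add]; exact Submodule.mul_mem_mul hx hy

theorem eq_zero_of_deg {n : ℕ} (hn : N < n) {x : Forms N} (hx : x ∈ ⋀[ℂ]^n (V N)) : x = 0 := by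
  rw [← ιMulti_span_fixedDegree] at hx
  induction hx using Submodule.span_induction with
  | mem x hx =>
    obtain ⟨v, rfl⟩ := hx
    apply AlternatingMap.map_linearDependent
    intro h
    have := h.fintype_card_le_finrank
    simp at this
    omega
  | zero => rfl
  | add x y _ _ hx hy => rw [hx, hy, add_zero]
  | smul c x _ hx => rw [hx, smul_zero]

/-- A form of top degree whose coefficient vanishes is zero. -/
theorem eq_zero_of_top {x : Forms N} (hx : x ∈ ⋀[ℂ]^N (V N)) (h : top N x = 0) : x = 0 := by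
  apply eq_zero_of_top_mul
  have : top N ∘ₗ LinearMap.mulLeft ℂ x = 0 := by
    apply (bE N).ext
    intro S
    change top N (x * bE N S) = 0
    by_cases hS : S = ∅
    · have h1 : bE N S ∈ (1 : Submodule ℂ (Forms N)) := by
        have h0 := bE_mem S
        rw [hS, Finset.card_empty] at h0
        rw [hS]
        have h00 : (⋀[ℂ]^0 (V N)) = (1 : Submodule ℂ (Forms N)) := by simp [exteriorPower]
        rwa [h00] at h0
      obtain ⟨r, hr⟩ := Submodule.mem_one.1 h1
      rw [← hr, ← Algebra.commutes, ← Algebra.smul_def, map_smul, h, smul_zero]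
    · have h1 : 0 < S.card := Finset.card_pos.2 (Finset.nonempty_iff_ne_empty.2 hS)
      rw [eq_zero_of_deg (by omega) (mul_mem_deg hx (bE_mem S)), map_zero]
  intro y
  exact LinearMap.congr_fun this y

end Pool.Agent.Y348.GW
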