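import Pool.Agent.Y348.GW.F2

set_option autoImplicit false

namespace Pool.Agent.Y348.GW

open ExteriorAlgebra

variable {N : ℕ}

/-- The monomial `e l₀ ∧ e l₁ ∧ ⋯`. -/
noncomputable def mono (N : ℕ) (l : List ℕ) : Forms N := (l.map (e N)).prod

@[simp] theorem mono_nil : mono N [] = 1 := rfl

theorem mono_cons (k : ℕ) (l : List ℕ) : mono N (k :: l) = e N k * mono N l := by
  simp [mono]

theorem mono_append (l l' : List ℕ) : mono N (l ++ l') = mono N l * mono N l' := by
  simp [mono]

theorem mono_eq_ιMulti (l : List ℕ) :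
    mono N l = ιMulti ℂ l.length (fun i => b N (l.get i)) := by
  rw [ιMulti_apply, mono]
  congr 1
  apply List.ext_get
  · simp
  · intro n h1 h2
    simp [e]

theorem mono_mem (l : List ℕ) : mono N l ∈ ⋀[ℂ]^l.length (V N) := by
  rw [mono_eq_ιMulti]
  exact ιMulti_range ℂ _ ⟨_, rfl⟩

theorem mono_eq_zero_of_not_nodup {l : List ℕ} (h : ¬ l.Nodup) : mono N l = 0 := by
  rw [mono_eq_ιMulti]
  apply AlternatingMap.map_eq_zero_of_not_injective
  intro hi
  apply h
  rw [List.nodup_iff_injective_get]
  intro i j hij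
  apply hi
  simp only [hij]

theorem mono_eq_zero_of_ge {l : List ℕ} {k : ℕ} (hk : k ∈ l) (hN : N ≤ k) : mono N l = 0 := by
  induction l with
  | nil => simp at hk
  | cons a l ih =>
    rw [mono_cons]
    rcases List.mem_cons.1 hk with h | h
    · rw [← h, e_zero hN, zero_mul]
    · rw [ih h, mul_zero]

/-- The sum of the weights of all basic forms. -/
def wt (N : ℕ) : ℕ := ∑ i ∈ Finset.range N, i

/-- The span of the monomials of weight at most `r`. -/
noncomputable def W (N r : ℕ) : Submodule ℂ (Forms N) :=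
  Submodule.span ℂ {x | ∃ l : List ℕ, l.sum ≤ r ∧ x = mono N l}

theorem mono_mem_W {l : List ℕ} {r : ℕ} (h : l.sum ≤ r) : mono N l ∈ W N r :=
  Submodule.subset_span ⟨l, h, rfl⟩

theorem W_mono {r s : ℕ} (h : r ≤ s) : W N r ≤ W N s :=
  Submodule.span_mono (by rintro x ⟨l, hl, rfl⟩; exact ⟨l, hl.trans h, rfl⟩)

theorem W_mul {r s : ℕ} {x y : Forms N} (hx : x ∈ W N r) (hy : y ∈ W N s) :
    x * y ∈ W N (r + s) := by
  have h : W N r * W N s ≤ W N (r + s) := by
    rw [W, W, Submodule.span_mul_span]
    refine Submodule.span_le.2 ?_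
    rintro _ ⟨_, ⟨l, hl, rfl⟩, _, ⟨l', hl', rfl⟩, rfl⟩
    change mono N l * mono N l' ∈ W N (r + s)
    rw [← mono_append]
    exact mono_mem_W (by rw [List.sum_append]; omega)
  exact h (Submodule.mul_mem_mul hx hy)

theorem e_mem_W (k : ℕ) : e N k ∈ W N k := by
  have := mono_mem_W (N := N) (l := [k]) (r := k) (by simp)
  simpa [mono] using this

theorem sum_le_wt {l : List ℕ} (hn : l.Nodup) (h : ∀ k ∈ l, k < N) : l.sum ≤ wt N := by
  have h1 : l.sum = ∑ k ∈ l.toFinset, k := by
    rw [List.sum_toFinset _ hn, List.map_id']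
  rw [h1, wt]
  apply Finset.sum_le_sum_of_subset
  intro k hk
  exact Finset.mem_range.2 (h k (List.mem_toFinset.1 hk))

theorem sum_eq_wt {l : List ℕ} (hn : l.Nodup) (h : ∀ k ∈ l, k < N) (hl : l.length = N) :
    l.sum = wt N := by
  have h1 : l.sum = ∑ k ∈ l.toFinset, k := by
    rw [List.sum_toFinset _ hn, List.map_id']
  have h2 : l.toFinset = Finset.range N := by
    apply Finset.eq_of_subset_of_card_le
    · intro k hk
      exact Finset.mem_range.2 (h k (List.mem_toFinset.1 hk))
    · rw [Finset.card_range, List.toFinset_card_of_nodup hn, hl]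
  rw [h1, h2, wt]

theorem mem_W_wt_mono (l : List ℕ) : mono N l ∈ W N (wt N) := by
  by_cases hn : l.Nodup
  · by_cases h : ∀ k ∈ l, k < N
    · exact mono_mem_W (sum_le_wt hn h)
    · push Not at h
      obtain ⟨k, hk, hk'⟩ := h
      rw [mono_eq_zero_of_ge hk hk']
      exact Submodule.zero_mem _
  · rw [mono_eq_zero_of_not_nodup hn]
    exact Submodule.zero_mem _

theorem ι_eq_sum (v : V N) : ι ℂ v = ∑ i : Fin N, v i • e N i.val := by
  have h : v = ∑ i : Fin N, v i • b N i.val := by
    funext j
    simp [b_fin, Finset.sum_apply, Pi.single_apply]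
  conv_lhs => rw [h]
  rw [map_sum]
  simp only [map_smul]
  rfl

theorem mem_W_wt (x : Forms N) : x ∈ W N (wt N) := by
  let M : Submodule ℂ (Forms N) := Submodule.span ℂ (Set.range (mono N))
  have hM : ∀ y : Forms N, y ∈ M := by
    intro y
    induction y using ExteriorAlgebra.induction with
    | algebraMap r =>
      rw [Algebra.algebraMap_eq_smul_one]
      exact M.smul_mem _ (Submodule.subset_span ⟨[], rfl⟩)
    | ι v =>
      rw [ι_eq_sum]
      refine M.sum_mem fun i _ => M.smul_mem _ (Submodule.subset_span ⟨[i.val], ?_⟩)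
      simp [mono]
    | mul x y hx hy =>
      have h : M * M ≤ M := by
        rw [Submodule.span_mul_span]
        refine Submodule.span_le.2 ?_
        rintro _ ⟨_, ⟨l, rfl⟩, _, ⟨l', rfl⟩, rfl⟩
        exact Submodule.subset_span ⟨l ++ l', mono_append _ _⟩
      exact h (Submodule.mul_mem_mul hx hy)
    | add x y hx hy => exact M.add_mem hx hy
  have h : M ≤ W N (wt N) := by
    refine Submodule.span_le.2 ?_
    rintro _ ⟨l, rfl⟩
    exact mem_W_wt_mono l
  exact h (hM x)

theorem d_mono (l : List ℕ) :
    (l.sum = 0 → d N (mono N l) = 0) ∧ ∀ s, l.sum = s + 1 → d N (mono N l) ∈ W N s := by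
  induction l with
  | nil => exact ⟨fun _ => d_one, fun s hs => by simp at hs⟩
  | cons k l ih =>
    rw [List.sum_cons, mono_cons]
    by_cases hk : k < N
    · rw [d_e_mul, d_e hk]
      constructor
      · intro h
        rw [ih.1 (by omega), if_neg (by omega)]
        simp
      · intro s hs
        refine Submodule.sub_mem _ ?_ ?_
        · split_ifs with h2
          · have h3 := W_mul (W_mul (e_mem_W (N := N) 0) (e_mem_W (k - 1)))
              (mono_mem_W (N := N) (l := l) le_rfl)
            exact W_mono (by omega) h3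
          · rw [zero_mul]; exact Submodule.zero_mem _
        · rcases Nat.eq_zero_or_pos l.sum with h0 | h0
          · rw [ih.1 h0, mul_zero]; exact Submodule.zero_mem _
          · have h3 := W_mul (e_mem_W (N := N) k) (ih.2 (l.sum - 1) (by omega))
            exact W_mono (by omega) h3
    · rw [e_zero (by omega), zero_mul, map_zero]
      exact ⟨fun _ => rfl, fun _ _ => Submodule.zero_mem _⟩

theorem d_mem_W {r : ℕ} {x : Forms N} (hx : x ∈ W N (r + 1)) : d N x ∈ W N r := by
  rw [W] at hx
  induction hx using Submodule.span_induction with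
  | mem x hx =>
    obtain ⟨l, hl, rfl⟩ := hx
    rcases Nat.eq_zero_or_pos l.sum with h0 | h0
    · rw [(d_mono l).1 h0]; exact Submodule.zero_mem _
    · exact W_mono (by omega) ((d_mono l).2 (l.sum - 1) (by omega))
  | zero => rw [map_zero]; exact Submodule.zero_mem _
  | add x y _ _ hx hy => rw [map_add]; exact Submodule.add_mem _ hx hy
  | smul c x _ hx => rw [map_smul]; exact Submodule.smul_mem _ _ hx

theorem d_eq_zero_of_W {x : Forms N} (hx : x ∈ W N 0) : d N x = 0 := by
  rw [W] at hx
  induction hx using Submodule.span_induction with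
  | mem x hx =>
    obtain ⟨l, hl, rfl⟩ := hx
    exact (d_mono l).1 (by omega)
  | zero => exact map_zero _
  | add x y _ _ hx hy => rw [map_add, hx, hy, add_zero]
  | smul c x _ hx => rw [map_smul, hx, smul_zero]

theorem top_W {r : ℕ} (hr : r < wt N) {x : Forms N} (hx : x ∈ W N r) : top N x = 0 := by
  rw [W] at hx
  induction hx using Submodule.span_induction with
  | mem x hx =>
    obtain ⟨l, hl, rfl⟩ := hx
    by_cases hlen : l.length = N
    · by_cases hn : l.Nodup
      · by_cases h : ∀ k ∈ l, k < N
        · have := sum_eq_wt hn h hlen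
          omega
        · push Not at h
          obtain ⟨k, hk, hk'⟩ := h
          rw [mono_eq_zero_of_ge hk hk', map_zero]
      · rw [mono_eq_zero_of_not_nodup hn, map_zero]
    · exact top_deg hlen (mono_mem l)
  | zero => exact map_zero _
  | add x y _ _ hx hy => rw [map_add, hx, hy, add_zero]
  | smul c x _ hx => rw [map_smul, hx, smul_zero]

/-- **Stokes' theorem** for invariant forms. -/
theorem top_d (x : Forms N) : top N (d N x) = 0 := by
  have hx := mem_W_wt x
  rcases Nat.eq_zero_or_pos (wt N) with h | h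
  · rw [h] at hx
    rw [d_eq_zero_of_W hx, map_zero]
  · obtain ⟨r, hr⟩ : ∃ r, wt N = r + 1 := ⟨wt N - 1, by omega⟩
    rw [hr] at hx
    exact top_W (by omega) (d_mem_W hx)

theorem top_mono {l : List ℕ} (hl : l.length = N) (hn : l.Nodup) (h : ∀ k ∈ l, k < N) :
    top N (mono N l) ≠ 0 := by
  subst hl
  rw [mono_eq_ιMulti, top_ιMulti_self]
  let s : Fin l.length → Fin l.length := fun i => ⟨l.get i, h _ (List.get_mem _ _)⟩
  have hs : Function.Injective s := by
    intro i j hij
    have h1 : l.get i = l.get j := congrArg Fin.val hij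
    exact List.nodup_iff_injective_get.1 hn h1
  have hb : (fun i : Fin l.length => b l.length (l.get i)) =
      fun i => (Pi.single (s i) 1 : V l.length) := by
    funext i
    exact b_fin (s i)
  rw [hb]
  have hli : LinearIndependent ℂ (fun i => (Pi.single (s i) 1 : V l.length)) := by
    have := (Pi.basisFun ℂ (Fin l.length)).linearIndependent.comp s hs
    convert this using 1
    funext i
    simp
  have := (Matrix.linearIndependent_rows_iff_isUnit (K := ℂ)
    (A := (fun i => (Pi.single (s i) 1 : V l.length)))).1 hli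
  rw [Matrix.isUnit_iff_isUnit_det] at this
  exact this.ne_zero

/-- `d` raises the degree by one. -/
theorem d_mem {n : ℕ} {x : Forms N} (hx : x ∈ ⋀[ℂ]^n (V N)) : d N x ∈ ⋀[ℂ]^(n + 1) (V N) := by
  have key : ∀ (n : ℕ) (v : Fin n → V N), d N (ιMulti ℂ n v) ∈ ⋀[ℂ]^(n + 1) (V N) := by
    intro n
    induction n with
    | zero => intro v; rw [ιMulti_zero_apply, d_one]; exact Submodule.zero_mem _
    | succ n ih =>
      intro v
      rw [ιMulti_succ_apply, d_mul, d_ι, CliffordAlgebra.involute_ι]
      refine Submodule.add_mem _ ?_ ?_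
      · rw [neg_mul]
        refine Submodule.neg_mem _ ?_
        have := mul_mem_deg (ι_mem (v 0)) (ih (Matrix.vecTail v))
        rwa [show 1 + (n + 1) = n + 1 + 1 by ring] at this
      · have := mul_mem_deg (mul_mem_deg (e_mem (N := N) 0) (ι_mem (shift N (v 0))))
          (ιMulti_range ℂ n ⟨Matrix.vecTail v, rfl⟩)
        rwa [show 1 + 1 + n = n + 1 + 1 by ring] at this
  rw [← ιMulti_span_fixedDegree] at hx
  induction hx using Submodule.span_induction with
  | mem x hx => obtain ⟨v, rfl⟩ := hx; exact key n v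
  | zero => rw [map_zero]; exact Submodule.zero_mem _
  | add x y _ _ hx hy => rw [map_add]; exact Submodule.add_mem _ hx hy
  | smul c x _ hx => rw [map_smul]; exact Submodule.smul_mem _ _ hx

end Pool.Agent.Y348.GW
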