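import Pool.Agent.Y348.GW.F3

set_option autoImplicit false

namespace Pool.Agent.Y348.GW

open ExteriorAlgebra

variable {N : ℕ}

/-- The algebra of closed invariant forms of even degree. -/
noncomputable def Closed (N : ℕ) : Subalgebra ℂ (Forms N) where
  carrier := {x | inv N x = x ∧ d N x = 0}
  mul_mem' := by
    rintro x y ⟨hx, hx'⟩ ⟨hy, hy'⟩
    refine ⟨by rw [map_mul, hx, hy], ?_⟩
    rw [d_mul, hx', hy', mul_zero, zero_mul, add_zero]
  add_mem' := by
    rintro x y ⟨hx, hx'⟩ ⟨hy, hy'⟩
    exact ⟨by rw [map_add, hx, hy], by rw [map_add, hx', hy', add_zero]⟩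
  algebraMap_mem' := by
    intro r
    exact ⟨AlgHom.commutes _ _, d_algebraMap r⟩

theorem Closed.inv_eq (x : Closed N) : inv N (x : Forms N) = x := x.2.1
theorem Closed.d_eq (x : Closed N) : d N (x : Forms N) = 0 := x.2.2

noncomputable instance : CommRing (Closed N) :=
  { (inferInstance : Ring (Closed N)) with
    mul_comm := fun x y => Subtype.ext (even_comm x.2.1 y) }

/-- The ideal of exact invariant forms of even degree. -/
noncomputable def Exact (N : ℕ) : Ideal (Closed N) where
  carrier := {z | ∃ y : Forms N, inv N y = -y ∧ d N y = (z : Forms N)}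
  add_mem' := by
    rintro _ _ ⟨x, hx, hx'⟩ ⟨y, hy, hy'⟩
    refine ⟨x + y, ?_, ?_⟩
    · rw [map_add, hx, hy, neg_add]
    · rw [map_add, hx', hy']; rfl
  zero_mem' := ⟨0, by simp, by simp⟩
  smul_mem' := by
    rintro w _ ⟨y, hy, hy'⟩
    refine ⟨w * y, ?_, ?_⟩
    · rw [map_mul, hy, Closed.inv_eq w, mul_neg]
    · rw [d_mul, Closed.inv_eq w, Closed.d_eq w, zero_mul, add_zero, hy']; rfl

/-- The even part of the cohomology ring of the complex of invariant forms. -/
def Hev (N : ℕ) : Type := Closed N ⧸ Exact N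

noncomputable instance : CommRing (Hev N) := inferInstanceAs (CommRing (Closed N ⧸ Exact N))

noncomputable instance : Algebra ℂ (Hev N) := inferInstanceAs (Algebra ℂ (Closed N ⧸ Exact N))

/-- The cohomology class of a closed form. -/
noncomputable def cls (N : ℕ) : Closed N →ₐ[ℂ] Hev N :=
  (Ideal.Quotient.mkₐ ℂ (Exact N) : Closed N →ₐ[ℂ] (Closed N ⧸ Exact N))

theorem cls_surjective : Function.Surjective (cls N) := Ideal.Quotient.mkₐ_surjective ℂ (Exact N)

theorem cls_eq_zero {z : Closed N} :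
    cls N z = 0 ↔ ∃ y : Forms N, inv N y = -y ∧ d N y = (z : Forms N) := by
  have : cls N z = 0 ↔ z ∈ Exact N := Ideal.Quotient.eq_zero_iff_mem
  rw [this]; rfl

/-- The classes of degree `2k`. -/
noncomputable def deg (N k : ℕ) : Submodule ℂ (Hev N) :=
  ((⋀[ℂ]^(2 * k) (V N)).comap (Closed N).val.toLinearMap).map (cls N).toLinearMap

/-- Integration over the nilmanifold. -/
noncomputable def integral (N : ℕ) : Hev N →ₗ[ℂ] ℂ :=
  (((Exact N).restrictScalars ℂ).liftQ (top N ∘ₗ (Closed N).val.toLinearMap) (by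
    rintro z ⟨y, -, hy⟩
    change top N (z : Forms N) = 0
    rw [← hy, top_d])) ∘ₗ
  (Submodule.Quotient.restrictScalarsEquiv ℂ (Exact N)).symm.toLinearMap

theorem integral_cls (z : Closed N) : integral N (cls N z) = top N (z : Forms N) := rfl

/-- Poincaré duality: the pairing `∫ x y` on the even cohomology is nondegenerate. -/
theorem eq_zero_of_integral_mul (hN : Even N) (x : Hev N) (h : ∀ y, integral N (x * y) = 0) :
    x = 0 := by
  obtain ⟨z, rfl⟩ := cls_surjective x
  rw [cls_eq_zero]
  have hz : ∀ w : Closed N, top N ((z : Forms N) * w) = 0 := by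
    intro w
    have := h (cls N w)
    rw [← map_mul, integral_cls] at this
    exact this
  -- the functional `w ↦ top (z w)` vanishes on closed forms
  have hker : LinearMap.ker (d N) ≤
      LinearMap.ker (top N ∘ₗ LinearMap.mulLeft ℂ (z : Forms N)) := by
    intro w hw
    have hw' : d N w = 0 := hw
    have hdi : d N (inv N w) = 0 := by rw [d_inv, hw', map_zero, neg_zero]
    -- even part
    let we : Closed N := ⟨(1 / 2 : ℂ) • (w + inv N w), by
      constructor
      · rw [map_smul, map_add, CliffordAlgebra.involute_involute, add_comm]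
      · rw [map_smul, map_add, hw', hdi, add_zero, smul_zero]⟩
    have h1 : top N ((z : Forms N) * we) = 0 := hz we
    have h2 : top N ((z : Forms N) * ((1 / 2 : ℂ) • (w - inv N w))) = 0 := by
      apply top_odd hN
      rw [map_mul, map_smul, map_sub, CliffordAlgebra.involute_involute, Closed.inv_eq z,
        ← mul_neg, ← smul_neg, neg_sub]
    change top N ((z : Forms N) * w) = 0
    have h3 : w = ((1 / 2 : ℂ) • (w + inv N w)) + ((1 / 2 : ℂ) • (w - inv N w)) := by
      module
    rw [h3, mul_add, map_add, h2, add_zero]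
    exact h1
  obtain ⟨l, hl⟩ : ∃ l : Forms N →ₗ[ℂ] ℂ,
      l ∘ₗ d N = top N ∘ₗ LinearMap.mulLeft ℂ (z : Forms N) := by
    have := (LinearMap.range_dualMap_eq_dualAnnihilator_ker (d N))
    have h2 : (top N ∘ₗ LinearMap.mulLeft ℂ (z : Forms N)) ∈ LinearMap.range (d N).dualMap := by
      rw [this, Submodule.mem_dualAnnihilator]
      intro w hw
      exact hker hw
    obtain ⟨l, hl⟩ := h2
    exact ⟨l, hl⟩
  -- `l` is the pairing with a form `η`
  let P : Forms N →ₗ[ℂ] Module.Dual ℂ (Forms N) :=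
    { toFun := fun η => top N ∘ₗ LinearMap.mulLeft ℂ η
      map_add' := fun a b => by ext w; simp [add_mul]
      map_smul' := fun c a => by ext w; simp }
  have hPinj : Function.Injective P := by
    rw [← LinearMap.ker_eq_bot, LinearMap.ker_eq_bot']
    intro η hη
    exact eq_zero_of_top_mul η fun y => LinearMap.congr_fun hη y
  have hPsurj : Function.Surjective P :=
    (LinearMap.injective_iff_surjective_of_finrank_eq_finrank
      (Subspace.dual_finrank_eq (K := ℂ) (V := Forms N)).symm).1 hPinj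
  obtain ⟨η, hη⟩ := hPsurj l
  have hzη : (z : Forms N) = -d N (inv N η) := by
    rw [← sub_eq_zero]
    apply eq_zero_of_top_mul
    intro w
    have h1 : top N ((z : Forms N) * w) = l (d N w) := (LinearMap.congr_fun hl w).symm
    have h2 : l (d N w) = top N (η * d N w) := by rw [← hη]; rfl
    have h3 : top N (d N (inv N η * w)) = 0 := top_d _
    rw [d_mul, CliffordAlgebra.involute_involute, map_add] at h3
    rw [sub_mul, map_sub, h1, h2, neg_mul, map_neg, sub_neg_eq_add, h3]
  have hid : ∀ x : Forms N, inv N (d N x) = -d N (inv N x) := fun x => by rw [d_inv, neg_neg]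
  refine ⟨-((1 / 2 : ℂ) • (inv N η - η)), ?_, ?_⟩
  · rw [map_neg, map_smul, map_sub, CliffordAlgebra.involute_involute]
    module
  · have h1 : (z : Forms N) = (1 / 2 : ℂ) • ((z : Forms N) + inv N (z : Forms N)) := by
      rw [Closed.inv_eq]; module
    rw [h1, hzη]
    simp only [map_neg, hid, CliffordAlgebra.involute_involute, map_smul, map_sub]
    module

theorem mem_deg {k : ℕ} {x : Hev N} :
    x ∈ deg N k ↔ ∃ z : Closed N, (z : Forms N) ∈ ⋀[ℂ]^(2 * k) (V N) ∧ cls N z = x := by
  rw [deg, Submodule.mem_map]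
  rfl

theorem deg_zero : deg N 0 = Submodule.span ℂ {1} := by
  apply le_antisymm
  · intro x hx
    obtain ⟨z, hz, rfl⟩ := mem_deg.1 hx
    have hz' : (z : Forms N) ∈ (1 : Submodule ℂ (Forms N)) := by
      have h0 : (⋀[ℂ]^(2 * 0) (V N)) = (1 : Submodule ℂ (Forms N)) := by simp [exteriorPower]
      rwa [h0] at hz
    obtain ⟨r, hr⟩ := Submodule.mem_one.1 hz'
    have : z = algebraMap ℂ (Closed N) r := Subtype.ext hr.symm
    rw [this, AlgHom.commutes, Algebra.algebraMap_eq_smul_one]
    exact Submodule.smul_mem _ _ (Submodule.mem_span_singleton_self _)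
  · rw [Submodule.span_singleton_le_iff_mem, mem_deg]
    refine ⟨1, ?_, map_one _⟩
    have h0 : (⋀[ℂ]^(2 * 0) (V N)) = (1 : Submodule ℂ (Forms N)) := by simp [exteriorPower]
    rw [h0]
    exact Submodule.one_le.1 le_rfl

theorem mul_mem_deg_add {i j : ℕ} {x y : Hev N} (hx : x ∈ deg N i) (hy : y ∈ deg N j) :
    x * y ∈ deg N (i + j) := by
  obtain ⟨z, hz, rfl⟩ := mem_deg.1 hx
  obtain ⟨w, hw, rfl⟩ := mem_deg.1 hy
  refine mem_deg.2 ⟨z * w, ?_, map_mul _ _ _⟩
  have := mul_mem_deg hz hw
  rwa [← mul_add] at this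

theorem integral_deg {k : ℕ} (hk : 2 * k ≠ N) {x : Hev N} (hx : x ∈ deg N k) :
    integral N x = 0 := by
  obtain ⟨z, hz, rfl⟩ := mem_deg.1 hx
  rw [integral_cls]
  exact top_deg hk hz

theorem deg_eq_bot {k : ℕ} (hk : N < 2 * k) {x : Hev N} (hx : x ∈ deg N k) : x = 0 := by
  obtain ⟨z, hz, rfl⟩ := mem_deg.1 hx
  have : z = 0 := Subtype.ext (eq_zero_of_deg hk hz)
  rw [this, map_zero]

end Pool.Agent.Y348.GW
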