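import Pool.Agent.Y348.GW.F4

set_option autoImplicit false

namespace Pool.Agent.Y348.GW

open ExteriorAlgebra

variable {N : ℕ}

/-- The `k`-th coordinate of a 1-form. -/
noncomputable def co (N k : ℕ) : V N →ₗ[ℂ] ℂ :=
  ∑ i : Fin N, (if i.val = k then (1 : ℂ) else 0) • LinearMap.proj i

theorem co_b (k j : ℕ) : co N k (b N j) = if k < N ∧ j = k then 1 else 0 := by
  rw [co, LinearMap.sum_apply]
  simp only [LinearMap.smul_apply, LinearMap.proj_apply, smul_eq_mul, b]
  by_cases hk : k < N
  · rw [Finset.sum_eq_single ⟨k, hk⟩]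
    · by_cases h : j = k
      · simp [h, hk]
      · have h' : ¬ k = j := fun h2 => h h2.symm
        simp [h, h']
    · intro i _ hi
      have : i.val ≠ k := fun h => hi (Fin.ext h)
      simp [this]
    · intro h; exact absurd (Finset.mem_univ _) h
  · rw [if_neg (by tauto)]
    apply Finset.sum_eq_zero
    intro i _
    have : i.val ≠ k := by have := i.2; omega
    simp [this]

/-- The coefficient of `e₀ ∧ e_a ∧ e_c`. -/
noncomputable def D (N a c : ℕ) : Forms N →ₗ[ℂ] ℂ :=
  liftAlternating (Pi.single 3 ((Matrix.detRowAlternating (n := Fin 3) (R := ℂ)).compLinearMap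
    (LinearMap.pi ![co N 0, co N a, co N c])))

theorem D_mul (a c i j k : ℕ) : D N a c (e N i * (e N j * e N k)) =
    Matrix.det !![co N 0 (b N i), co N a (b N i), co N c (b N i);
      co N 0 (b N j), co N a (b N j), co N c (b N j);
      co N 0 (b N k), co N a (b N k), co N c (b N k)] := by
  have h : e N i * (e N j * e N k) = ιMulti ℂ 3 ![b N i, b N j, b N k] := by
    rw [ιMulti_apply]
    simp [List.ofFn_succ, e]
  rw [h, D, liftAlternating_apply_ιMulti, Pi.single_eq_same]
  change Matrix.det (fun r => LinearMap.pi ![co N 0, co N a, co N c] (![b N i, b N j, b N k] r)) = _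
  congr 1
  ext r s
  fin_cases r <;> fin_cases s <;> rfl

theorem D_e0 {a c : ℕ} (ha : 1 ≤ a) (hc : 1 ≤ c) (haN : a < N) (hcN : c < N) (j k : ℕ) :
    D N a c (e N 0 * (e N j * e N k)) =
      (if j = a then 1 else 0) * (if k = c then 1 else 0) -
      (if j = c then 1 else 0) * (if k = a then 1 else 0) := by
  rw [D_mul, Matrix.det_fin_three]
  simp only [co_b, Matrix.of_apply, Matrix.cons_val', Matrix.cons_val_zero, Matrix.cons_val_one,
    Matrix.cons_val, haN, hcN, true_and]
  have h0 : 0 < N := by omega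
  have h1 : (0 : ℕ) ≠ a := by omega
  have h2 : (0 : ℕ) ≠ c := by omega
  simp [h0, h1, h2]

theorem D_d {a c : ℕ} (ha : 1 ≤ a) (hc : 1 ≤ c) (haN : a < N) (hcN : c < N) {i j : ℕ}
    (hi : i < N) (hj : j < N) :
    D N a c (d N (e N i * e N j)) =
      (if i = a + 1 then 1 else 0) * (if j = c then 1 else 0) -
      (if i = c + 1 then 1 else 0) * (if j = a then 1 else 0) +
      ((if i = a then 1 else 0) * (if j = c + 1 then 1 else 0) -
      (if i = c then 1 else 0) * (if j = a + 1 then 1 else 0)) := by
  rw [d_e_mul, d_e hi, d_e hj]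
  have h1 : (if 2 ≤ i then e N 0 * e N (i - 1) else 0) * e N j -
      e N i * (if 2 ≤ j then e N 0 * e N (j - 1) else 0) =
      (if 2 ≤ i then e N 0 * (e N (i - 1) * e N j) else 0) +
      (if 2 ≤ j then e N 0 * (e N i * e N (j - 1)) else 0) := by
    have h3 : e N i * (e N 0 * e N (j - 1)) = -(e N 0 * (e N i * e N (j - 1))) := by
      rw [← mul_assoc, e_comm i 0, neg_mul, mul_assoc]
    split_ifs
    · rw [h3, mul_assoc, sub_neg_eq_add]
    · rw [mul_zero, sub_zero, add_zero, mul_assoc]
    · rw [h3, zero_mul, zero_sub, neg_neg, zero_add]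
    · simp
  rw [h1, map_add]
  congr 1
  · by_cases h2 : 2 ≤ i
    · have e1 : (i - 1 = a) ↔ (i = a + 1) := by omega
      have e2 : (i - 1 = c) ↔ (i = c + 1) := by omega
      rw [if_pos h2, D_e0 ha hc haN hcN]
      simp only [e1, e2]
    · have e1 : ¬ (i = a + 1) := by omega
      have e2 : ¬ (i = c + 1) := by omega
      rw [if_neg h2, if_neg e1, if_neg e2, map_zero, zero_mul, zero_mul, sub_zero]
  · by_cases h2 : 2 ≤ j
    · have e1 : (j - 1 = a) ↔ (j = a + 1) := by omega
      have e2 : (j - 1 = c) ↔ (j = c + 1) := by omega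
      rw [if_pos h2, D_e0 ha hc haN hcN]
      simp only [e1, e2]
    · have e1 : ¬ (j = a + 1) := by omega
      have e2 : ¬ (j = c + 1) := by omega
      rw [if_neg h2, if_neg e1, if_neg e2, map_zero, mul_zero, mul_zero, sub_zero]

/-- Every 2-form is a combination of the products `e i ∧ e j` with antisymmetric coefficients. -/
theorem two_form {z : Forms N} (hz : z ∈ ⋀[ℂ]^2 (V N)) :
    ∃ A : ℕ → ℕ → ℂ, (∀ i j, A j i = -A i j) ∧ (∀ i j, N ≤ i → A i j = 0) ∧
      z = ∑ i ∈ Finset.range N, ∑ j ∈ Finset.range N, A i j • (e N i * e N j) := by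
  rw [← ιMulti_span_fixedDegree] at hz
  induction hz using Submodule.span_induction with
  | mem x hx =>
    obtain ⟨v, rfl⟩ := hx
    let f : ℕ → ℂ := fun i => if h : i < N then v 0 ⟨i, h⟩ else 0
    let g : ℕ → ℂ := fun i => if h : i < N then v 1 ⟨i, h⟩ else 0
    have hf : ι ℂ (v 0) = ∑ i ∈ Finset.range N, f i • e N i := by
      rw [ι_eq_sum, Finset.sum_range]
      refine Finset.sum_congr rfl fun i _ => ?_
      simp only [f, dif_pos i.2]
    have hg : ι ℂ (v 1) = ∑ i ∈ Finset.range N, g i • e N i := by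
      rw [ι_eq_sum, Finset.sum_range]
      refine Finset.sum_congr rfl fun i _ => ?_
      simp only [g, dif_pos i.2]
    refine ⟨fun i j => (f i * g j - f j * g i) / 2, fun i j => by ring, fun i j hi => ?_, ?_⟩
    · have h1 : f i = 0 := dif_neg (by omega)
      have h2 : g i = 0 := dif_neg (by omega)
      simp [h1, h2]
    · have h1 : ιMulti ℂ 2 v = ι ℂ (v 0) * ι ℂ (v 1) := by
        rw [ιMulti_apply]; simp [List.ofFn_succ]
      rw [h1, hf, hg, Finset.sum_mul_sum]
      have h2 : ∑ i ∈ Finset.range N, ∑ j ∈ Finset.range N, (f i • e N i) * (g j • e N j) =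
          ∑ i ∈ Finset.range N, ∑ j ∈ Finset.range N, (f i * g j) • (e N i * e N j) := by
        refine Finset.sum_congr rfl fun i _ => Finset.sum_congr rfl fun j _ => ?_
        rw [smul_mul_smul_comm]
      have h3 : ∑ i ∈ Finset.range N, ∑ j ∈ Finset.range N, (f i * g j) • (e N i * e N j) =
          -∑ i ∈ Finset.range N, ∑ j ∈ Finset.range N, (f j * g i) • (e N i * e N j) := by
        rw [Finset.sum_comm, ← Finset.sum_neg_distrib]
        refine Finset.sum_congr rfl fun i _ => ?_
        rw [← Finset.sum_neg_distrib]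
        refine Finset.sum_congr rfl fun j _ => ?_
        rw [e_comm j i, smul_neg]
      rw [h2]
      have h4 : ∑ i ∈ Finset.range N, ∑ j ∈ Finset.range N,
          ((f i * g j - f j * g i) / 2) • (e N i * e N j) =
          (1 / 2 : ℂ) • ∑ i ∈ Finset.range N, ∑ j ∈ Finset.range N, (f i * g j) • (e N i * e N j) -
          (1 / 2 : ℂ) • ∑ i ∈ Finset.range N, ∑ j ∈ Finset.range N,
            (f j * g i) • (e N i * e N j) := by
        simp only [Finset.smul_sum, ← Finset.sum_sub_distrib]
        refine Finset.sum_congr rfl fun i _ => Finset.sum_congr rfl fun j _ => ?_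
        module
      rw [h4]
      conv_rhs => rw [sub_eq_add_neg, ← smul_neg, ← h3, ← add_smul]
      norm_num
  | zero => exact ⟨fun _ _ => 0, fun _ _ => by simp, fun _ _ _ => rfl, by simp⟩
  | add x y _ _ hx hy =>
    obtain ⟨A, hA, hA', hAz⟩ := hx
    obtain ⟨B, hB, hB', hBz⟩ := hy
    refine ⟨fun i j => A i j + B i j, fun i j => by dsimp only; rw [hA i j, hB i j]; ring,
      fun i j hi => by dsimp only; rw [hA' i j hi, hB' i j hi, add_zero], ?_⟩
    rw [hAz, hBz]
    simp only [add_smul, Finset.sum_add_distrib]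
  | smul c x _ hx =>
    obtain ⟨A, hA, hA', hAz⟩ := hx
    refine ⟨fun i j => c * A i j, fun i j => by dsimp only; rw [hA i j]; ring,
      fun i j hi => by dsimp only; rw [hA' i j hi, mul_zero], ?_⟩
    rw [hAz]
    simp only [Finset.smul_sum, smul_smul]

theorem sum_ite_mul (F : ℕ → ℕ → ℂ) {p q : ℕ} (hp : ∀ i, N ≤ p → F p i = 0)
    (hq : ∀ i, N ≤ q → F i q = 0) :
    ∑ i ∈ Finset.range N, ∑ j ∈ Finset.range N,
      F i j * ((if i = p then 1 else 0) * (if j = q then 1 else 0)) = F p q := by
  by_cases hpN : p < N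
  · rw [Finset.sum_eq_single p]
    · by_cases hqN : q < N
      · rw [Finset.sum_eq_single q]
        · simp
        · intro j _ hj; simp [hj]
        · intro h; exact absurd (Finset.mem_range.2 hqN) h
      · rw [hq p (by omega)]
        apply Finset.sum_eq_zero
        intro j hj
        have : j ≠ q := by have := Finset.mem_range.1 hj; omega
        simp [this]
    · intro i _ hi
      apply Finset.sum_eq_zero
      intro j _
      simp [hi]
    · intro h; exact absurd (Finset.mem_range.2 hpN) h
  · rw [hp q (by omega)]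
    apply Finset.sum_eq_zero
    intro i hi
    apply Finset.sum_eq_zero
    intro j _
    have : i ≠ p := by have := Finset.mem_range.1 hi; omega
    simp [this]

/-- The recursion for the coefficients of a closed 2-form. -/
theorem rec_closed {A : ℕ → ℕ → ℂ} (hA : ∀ i j, A j i = -A i j)
    (hA' : ∀ i j, N ≤ i → A i j = 0)
    (hd : d N (∑ i ∈ Finset.range N, ∑ j ∈ Finset.range N, A i j • (e N i * e N j)) = 0)
    {a c : ℕ} (ha : 1 ≤ a) (hc : 1 ≤ c) (haN : a < N) (hcN : c < N) :
    A (a + 1) c = -A a (c + 1) := by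
  have hA'' : ∀ i j, N ≤ j → A i j = 0 := fun i j hj => by rw [hA j i, hA' j i hj, neg_zero]
  have h1 := congrArg (D N a c) hd
  rw [map_zero, map_sum, map_sum] at h1
  have h2 : ∑ i ∈ Finset.range N, D N a c (d N (∑ j ∈ Finset.range N, A i j • (e N i * e N j))) =
      ∑ i ∈ Finset.range N, ∑ j ∈ Finset.range N,
        (A i j * ((if i = a + 1 then 1 else 0) * (if j = c then 1 else 0)) -
        A i j * ((if i = c + 1 then 1 else 0) * (if j = a then 1 else 0)) +
        (A i j * ((if i = a then 1 else 0) * (if j = c + 1 then 1 else 0)) -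
        A i j * ((if i = c then 1 else 0) * (if j = a + 1 then 1 else 0)))) := by
    refine Finset.sum_congr rfl fun i hi => ?_
    rw [map_sum, map_sum]
    refine Finset.sum_congr rfl fun j hj => ?_
    rw [map_smul, map_smul, D_d ha hc haN hcN (Finset.mem_range.1 hi) (Finset.mem_range.1 hj),
      smul_eq_mul]
    ring
  rw [h2] at h1
  simp only [Finset.sum_add_distrib, Finset.sum_sub_distrib] at h1
  rw [sum_ite_mul A (fun i h => hA' _ _ h) (fun i h => hA'' _ _ h),
    sum_ite_mul A (fun i h => hA' _ _ h) (fun i h => hA'' _ _ h),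
    sum_ite_mul A (fun i h => hA' _ _ h) (fun i h => hA'' _ _ h),
    sum_ite_mul A (fun i h => hA' _ _ h) (fun i h => hA'' _ _ h)] at h1
  have h3 := hA a (c + 1)
  have h4 := hA (a + 1) c
  rw [h3, h4] at h1
  linear_combination h1 / 2

/-- The coefficients of a closed 2-form vanish for `i + j ≥ N`, `i, j ≥ 1` (`N` even). -/
theorem coeff_zero (hN : Even N) {A : ℕ → ℕ → ℂ} (hA : ∀ i j, A j i = -A i j)
    (hA' : ∀ i j, N ≤ i → A i j = 0)
    (hrec : ∀ a c, 1 ≤ a → 1 ≤ c → a < N → c < N → A (a + 1) c = -A a (c + 1))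
    {i j : ℕ} (hi : 1 ≤ i) (hj : 1 ≤ j) (hij : N ≤ i + j) : A i j = 0 := by
  have hA'' : ∀ i j, N ≤ j → A i j = 0 := fun i j hj => by rw [hA j i, hA' j i hj, neg_zero]
  have hAA : ∀ i, A i i = 0 := fun i => by
    have := hA i i
    linear_combination this / 2
  -- `i + j ≥ N + 1`
  have key1 : ∀ k i j, N - i = k → 1 ≤ i → 1 ≤ j → N + 1 ≤ i + j → A i j = 0 := by
    intro k
    induction k with
    | zero => intro i j hk _ _ _; exact hA' i j (by omega)
    | succ k ih =>
      intro i j hk hi hj hij
      rcases Nat.lt_or_ge j N with hjN | hjN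
      · have h1 := ih (i + 1) (j - 1) (by omega) (by omega) (by omega) (by omega)
        have h2 := hrec i (j - 1) hi (by omega) (by omega) (by omega)
        rw [show j - 1 + 1 = j by omega, h1] at h2
        linear_combination h2
      · exact hA'' i j hjN
  -- `i + j = N`
  have key2 : ∀ t i j, j = i + 2 * t → 1 ≤ i → i + j = N → A i j = 0 := by
    intro t
    induction t with
    | zero => intro i j hj _ _; rw [hj, mul_zero, add_zero]; exact hAA i
    | succ t ih =>
      intro i j hj hi hij
      have h1 := ih (i + 1) (j - 1) (by omega) (by omega) (by omega)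
      have h2 := hrec i (j - 1) hi (by omega) (by omega) (by omega)
      rw [show j - 1 + 1 = j by omega, h1] at h2
      linear_combination h2
  rcases Nat.lt_or_ge N (i + j) with h | h
  · exact key1 _ i j rfl hi hj (by omega)
  · obtain ⟨m, hm⟩ := hN
    rcases Nat.le_total i j with h' | h'
    · exact key2 ((j - i) / 2) i j (by omega) hi (by omega)
    · rw [hA j i, key2 ((i - j) / 2) j i (by omega) hj (by omega), neg_zero]

/-- Closed 2-forms have weight at most `N - 1` (`N` even). -/
theorem closed_mem_W (hN : Even N) {z : Forms N} (hz : z ∈ ⋀[ℂ]^2 (V N)) (hd : d N z = 0) :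
    z ∈ W N (N - 1) := by
  obtain ⟨A, hA, hA', rfl⟩ := two_form hz
  refine Submodule.sum_mem _ fun i hi => Submodule.sum_mem _ fun j hj => ?_
  have hi' := Finset.mem_range.1 hi
  have hj' := Finset.mem_range.1 hj
  by_cases h : i + j ≤ N - 1
  · exact Submodule.smul_mem _ _ (W_mono h (W_mul (e_mem_W i) (e_mem_W j)))
  · rw [coeff_zero hN hA hA' (fun a c ha hc haN hcN => rec_closed hA hA' hd ha hc haN hcN)
      (by omega) (by omega) (by omega), zero_smul]
    exact Submodule.zero_mem _

end Pool.Agent.Y348.GW
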