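import Pool.Agent.Y348.GW.F5

set_option autoImplicit false

namespace Pool.Agent.Y348.GW

open ExteriorAlgebra

variable {N : ℕ}

theorem inv_ee (i j : ℕ) : inv N (e N i * e N j) = e N i * e N j := by
  rw [map_mul, inv_e, inv_e, neg_mul_neg]

theorem ee_mem (i j : ℕ) : e N i * e N j ∈ ⋀[ℂ]^2 (V N) := mul_mem_deg (e_mem i) (e_mem j)

theorem d_e1 : d N (e N 1) = 0 := by
  by_cases h : 1 < N
  · rw [d_e h]; rfl
  · rw [e_zero (by omega), map_zero]

theorem d_e12 : d N (e N 1 * e N 2) = 0 := by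
  by_cases h : 2 < N
  · rw [d_e_mul, d_e1, d_e h, zero_mul, zero_sub, if_pos le_rfl, ← mul_assoc, e_comm 1 0,
      neg_mul, mul_assoc, e_mul_e]
    simp
  · rw [e_zero (k := 2) (by omega), mul_zero, map_zero]

/-- The closed form `e₁ ∧ e₂`. -/
noncomputable def z12 (N : ℕ) : Closed N := ⟨e N 1 * e N 2, inv_ee 1 2, d_e12⟩

theorem cls_z12_ne (h3 : 3 ≤ N) : cls N (z12 N) ≠ 0 := by
  intro h
  obtain ⟨y, -, hy⟩ := cls_eq_zero.1 h
  have h0 : e N 0 * (e N 1 * e N 2) = 0 := by
    change e N 0 * ((z12 N : Closed N) : Forms N) = 0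
    rw [← hy, e0_mul_d]
  have h1 := D_e0 (N := N) (a := 1) (c := 2) le_rfl (by omega) (by omega) (by omega) 1 2
  rw [h0, map_zero] at h1
  simp at h1

theorem cls_z12_mem : cls N (z12 N) ∈ deg N 1 := mem_deg.2 ⟨z12 N, ee_mem 1 2, rfl⟩

/-- `x` is a product of `k` classes of degree 2: it is represented by a closed form of degree `2k` and
weight at most `k (N - 1)`. -/
def Q (N k : ℕ) (x : Hev N) : Prop :=
  ∃ z : Closed N, (z : Forms N) ∈ ⋀[ℂ]^(2 * k) (V N) ∧ (z : Forms N) ∈ W N (k * (N - 1)) ∧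
    cls N z = x

theorem Q_closure (hN : Even N) {S : Set (Hev N)} (hS : ∀ x ∈ S, x ∈ deg N 1) {x : Hev N}
    (hx : x ∈ Submonoid.closure S) : ∃ k, Q N k x := by
  induction hx using Submonoid.closure_induction with
  | mem x hx =>
    obtain ⟨z, hz, rfl⟩ := mem_deg.1 (hS x hx)
    exact ⟨1, z, hz, by rw [one_mul]; exact closed_mem_W hN hz z.2.2, rfl⟩
  | one =>
    refine ⟨0, 1, ?_, ?_, map_one _⟩
    · have h0 : (⋀[ℂ]^(2 * 0) (V N)) = (1 : Submodule ℂ (Forms N)) := by simp [exteriorPower]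
      rw [h0]
      exact Submodule.one_le.1 le_rfl
    · exact mono_mem_W (N := N) (l := []) (by simp)
  | mul x y _ _ hx hy =>
    obtain ⟨k, z, hz, hz', rfl⟩ := hx
    obtain ⟨k', w, hw, hw', rfl⟩ := hy
    refine ⟨k + k', z * w, ?_, ?_, map_mul _ _ _⟩
    · have := mul_mem_deg hz hw
      rwa [← mul_add] at this
    · have := W_mul hz' hw'
      rwa [← add_mul] at this

/-- The filtration of the even cohomology by degree: the classes of degree at most `p`. -/
noncomputable def degFilt (N : ℕ) (p : ℤ) : Submodule ℂ (Hev N) :=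
  ⨆ (k : ℕ) (_ : 2 * (k : ℤ) ≤ p), deg N k

theorem deg_le_degFilt {k : ℕ} {p : ℤ} (h : 2 * (k : ℤ) ≤ p) : deg N k ≤ degFilt N p :=
  le_iSup₂_of_le (f := fun (k : ℕ) (_ : 2 * (k : ℤ) ≤ p) => deg N k) k h le_rfl

theorem wt_mul_two (N : ℕ) : wt N * 2 = N * (N - 1) := Finset.sum_range_id_mul_two N

theorem Q_mul_z12 {n : ℕ} (hn : 3 ≤ n) {x : Hev (2 * n)} {k : ℕ} (hx : Q (2 * n) k x) :
    x * cls (2 * n) (z12 (2 * n)) ∈ degFilt (2 * n) (2 * (n : ℤ) - 2) := by
  obtain ⟨z, hz, hz', rfl⟩ := hx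
  rw [← map_mul]
  have h1 : ((z * z12 (2 * n) : Closed (2 * n)) : Forms (2 * n)) ∈
      ⋀[ℂ]^(2 * (k + 1)) (V (2 * n)) := by
    have := mul_mem_deg hz (ee_mem (N := 2 * n) 1 2)
    rwa [show 2 * k + 2 = 2 * (k + 1) by ring] at this
  have h2 : ((z * z12 (2 * n) : Closed (2 * n)) : Forms (2 * n)) ∈
      W (2 * n) (k * (2 * n - 1) + (1 + 2)) :=
    W_mul hz' (W_mul (e_mem_W 1) (e_mem_W 2))
  rcases Nat.lt_trichotomy (k + 1) n with h | h | h
  · exact deg_le_degFilt (by omega) (mem_deg.2 ⟨_, h1, rfl⟩)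
  · have h3 : ((z * z12 (2 * n) : Closed (2 * n)) : Forms (2 * n)) = 0 := by
      rw [h] at h1
      refine eq_zero_of_top h1 (top_W ?_ h2)
      have h4 := wt_mul_two (2 * n)
      obtain ⟨m, rfl⟩ : ∃ m, n = m + 3 := ⟨n - 3, by omega⟩
      have h5 : k = m + 2 := by omega
      subst h5
      have h6 : 2 * (m + 3) - 1 = 2 * m + 5 := by omega
      rw [h6] at h4 ⊢
      nlinarith
    have h4 : z * z12 (2 * n) = 0 := Subtype.ext h3
    rw [h4, map_zero]
    exact Submodule.zero_mem _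
  · have h4 : z * z12 (2 * n) = 0 := Subtype.ext (eq_zero_of_deg (by omega) h1)
    rw [h4, map_zero]
    exact Submodule.zero_mem _

/-- Multiples of `[e₁ ∧ e₂]` by the subalgebra generated by `H²`. -/
theorem adjoin_mul_z12 {n : ℕ} (hn : 3 ≤ n) {S : Set (Hev (2 * n))}
    (hS : ∀ x ∈ S, x ∈ deg (2 * n) 1) {a : Hev (2 * n)} (ha : a ∈ Algebra.adjoin ℂ S) :
    a * cls (2 * n) (z12 (2 * n)) ∈ degFilt (2 * n) (2 * (n : ℤ) - 2) := by
  have hN : Even (2 * n) := ⟨n, by ring⟩
  have ha' : a ∈ Submodule.span ℂ (Submonoid.closure S : Set (Hev (2 * n))) := by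
    rw [← Algebra.adjoin_eq_span]; exact ha
  induction ha' using Submodule.span_induction with
  | mem x hx =>
    obtain ⟨k, hk⟩ := Q_closure hN hS hx
    exact Q_mul_z12 hn hk
  | zero => rw [zero_mul]; exact Submodule.zero_mem _
  | add x y hx hy ihx ihy =>
    have e := Algebra.adjoin_eq_span ℂ S
    have hx' : x ∈ Algebra.adjoin ℂ S := by
      change x ∈ Subalgebra.toSubmodule (Algebra.adjoin ℂ S)
      rw [e]; exact hx
    have hy' : y ∈ Algebra.adjoin ℂ S := by
      change y ∈ Subalgebra.toSubmodule (Algebra.adjoin ℂ S)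
      rw [e]; exact hy
    rw [add_mul]; exact Submodule.add_mem _ (ihx hx') (ihy hy')
  | smul c x hx ihx =>
    have e := Algebra.adjoin_eq_span ℂ S
    have hx' : x ∈ Algebra.adjoin ℂ S := by
      change x ∈ Subalgebra.toSubmodule (Algebra.adjoin ℂ S)
      rw [e]; exact hx
    rw [smul_mul_assoc]; exact Submodule.smul_mem _ _ (ihx hx')

theorem degFilt_zero : degFilt N 0 = Submodule.span ℂ {1} := by
  rw [← deg_zero]
  apply le_antisymm
  · refine iSup₂_le fun k hk => ?_
    have : k = 0 := by omega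
    rw [this]
  · exact deg_le_degFilt (by norm_num)

theorem degFilt_le_ker {n : ℕ} :
    degFilt (2 * n) (2 * (n : ℤ) - 2) ≤ LinearMap.ker (integral (2 * n)) := by
  refine iSup₂_le fun k hk => ?_
  intro x hx
  exact integral_deg (by omega) hx

/-! ### The symplectic form -/

/-- The signs in the symplectic form. -/
def sg (i : ℕ) : ℂ := if i = 0 then 1 else (-1) ^ (i + 1)

theorem sg_ne (i : ℕ) : sg i ≠ 0 := by
  unfold sg
  split_ifs
  · exact one_ne_zero
  · exact pow_ne_zero _ (by norm_num)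

/-- The form `e₀ ∧ e_{2n-1} + ∑_{1 ≤ i < n} (-1)^(i+1) e_i ∧ e_{2n-1-i}`. -/
noncomputable def ωf (n : ℕ) : Forms (2 * n) :=
  ∑ i ∈ Finset.range n, sg i • (e (2 * n) i * e (2 * n) (2 * n - 1 - i))

theorem d_ωf (n : ℕ) (hn : 2 ≤ n) : d (2 * n) (ωf n) = 0 := by
  have key : ∀ m, 1 ≤ m → m ≤ n →
      d (2 * n) (∑ i ∈ Finset.range m, sg i • (e (2 * n) i * e (2 * n) (2 * n - 1 - i))) =
        if m = 1 then 0 else
        (-1 : ℂ) ^ m • (e (2 * n) 0 * (e (2 * n) (m - 1) * e (2 * n) (2 * n - 1 - m))) := by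
    intro m hm
    induction m, hm using Nat.le_induction with
    | base =>
      intro _
      rw [if_pos rfl, Finset.sum_range_one, map_smul, d_e_mul, d_e0, d_e (by omega),
        if_pos (by omega), ← mul_assoc, e_mul_e]
      simp
    | succ m hm ih =>
      intro hmn
      have h3 : e (2 * n) m * (e (2 * n) 0 * e (2 * n) (2 * n - 1 - m - 1)) =
          -(e (2 * n) 0 * (e (2 * n) m * e (2 * n) (2 * n - 1 - (m + 1)))) := by
        rw [← mul_assoc, e_comm m 0, neg_mul, mul_assoc, Nat.sub_sub (2 * n - 1) m 1]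
      have hsg : sg m = (-1 : ℂ) ^ (m + 1) := by
        unfold sg; rw [if_neg (by omega)]
      have h5 : m + 1 ≠ 1 := by omega
      rw [Finset.sum_range_succ, map_add, ih (by omega), map_smul, d_e_mul,
        d_e (by omega), d_e (by omega), if_pos (show 2 ≤ 2 * n - 1 - m by omega), h3,
        sub_neg_eq_add, hsg, if_neg h5, Nat.add_sub_cancel]
      by_cases h1 : m = 1
      · subst h1
        rw [if_pos rfl, if_neg (by omega), zero_mul, zero_add, zero_add]
      · rw [if_neg h1, if_pos (show 2 ≤ m by omega), mul_assoc (e (2 * n) 0), smul_add,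
          ← add_assoc, ← add_smul, pow_succ]
        simp
  rw [ωf, key n (by omega) le_rfl, if_neg (by omega)]
  have h : 2 * n - 1 - n = n - 1 := by omega
  rw [h, e_mul_e]
  simp

theorem inv_ωf (n : ℕ) : inv (2 * n) (ωf n) = ωf n := by
  rw [ωf, map_sum]
  exact Finset.sum_congr rfl fun i _ => by rw [map_smul, inv_ee]

/-- The invariant symplectic form. -/
noncomputable def zω (n : ℕ) (hn : 2 ≤ n) : Closed (2 * n) := ⟨ωf n, inv_ωf n, d_ωf n hn⟩

theorem cls_zω_mem (n : ℕ) (hn : 2 ≤ n) : cls (2 * n) (zω n hn) ∈ deg (2 * n) 1 :=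
  mem_deg.2 ⟨zω n hn, by
    change ωf n ∈ ⋀[ℂ]^2 (V (2 * n))
    exact Submodule.sum_mem _ fun _ _ => Submodule.smul_mem _ _ (ee_mem _ _), rfl⟩

/-- The algebra of even forms. -/
noncomputable def Ev (N : ℕ) : Subalgebra ℂ (Forms N) where
  carrier := {x | inv N x = x}
  mul_mem' := by
    intro x y hx hy
    change inv N (x * y) = x * y
    rw [map_mul]
    exact congrArg₂ _ hx hy
  add_mem' := by
    intro x y hx hy
    change inv N (x + y) = x + y
    rw [map_add]
    exact congrArg₂ _ hx hy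
  algebraMap_mem' := by
    intro r
    exact AlgHom.commutes _ _

noncomputable instance : CommRing (Ev N) :=
  { (inferInstance : Ring (Ev N)) with
    mul_comm := fun x y => Subtype.ext (even_comm x.2 y) }

theorem pow_add_sq_zero {R : Type*} [CommRing R] (S q : R) (hq : q * q = 0) (m : ℕ) :
    (S + q) ^ (m + 1) = S ^ (m + 1) + ((m : R) + 1) * S ^ m * q := by
  induction m with
  | zero => simp
  | succ m ih =>
    rw [pow_succ (S + q), ih]
    push_cast
    linear_combination ((m : R) + 1) * S ^ m * hq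

theorem sum_pow_sq_zero {R : Type*} [CommRing R] (q : ℕ → R) (hq : ∀ i, q i * q i = 0) (n : ℕ) :
    (∑ i ∈ Finset.range n, q i) ^ n = (n.factorial : R) * ∏ i ∈ Finset.range n, q i ∧
      (∑ i ∈ Finset.range n, q i) ^ (n + 1) = 0 := by
  induction n with
  | zero => simp
  | succ n ih =>
    rw [Finset.sum_range_succ, pow_add_sq_zero _ _ (hq n), pow_add_sq_zero _ _ (hq n), ih.2, ih.1,
      Finset.prod_range_succ, Nat.factorial_succ]
    constructor
    · push_cast; ring
    · rw [pow_succ, ih.2]; ring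

/-- The list `0, N-1, 1, N-2, …`. -/
def L (N : ℕ) : ℕ → List ℕ
  | 0 => []
  | m + 1 => L N m ++ [m, N - 1 - m]

theorem L_length (N m : ℕ) : (L N m).length = 2 * m := by
  induction m with
  | zero => rfl
  | succ m ih => simp [L, ih]; ring

theorem L_mem {N m k : ℕ} (h : k ∈ L N m) : k < m ∨ ∃ i < m, k = N - 1 - i := by
  induction m with
  | zero => simp [L] at h
  | succ m ih =>
    rw [L, List.mem_append] at h
    rcases h with h | h
    · rcases ih h with h | ⟨i, hi, rfl⟩
      · left; omega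
      · right; exact ⟨i, by omega, rfl⟩
    · simp only [List.mem_cons, List.not_mem_nil, or_false] at h
      rcases h with rfl | rfl
      · left; omega
      · right; exact ⟨m, by omega, rfl⟩

theorem L_nodup {n m : ℕ} (h : m ≤ n) : (L (2 * n) m).Nodup := by
  induction m with
  | zero => exact List.nodup_nil
  | succ m ih =>
    rw [L, List.nodup_append]
    refine ⟨ih (by omega), ?_, ?_⟩
    · simp only [List.nodup_cons, List.mem_cons, List.not_mem_nil, or_false, not_false_eq_true,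
        List.nodup_nil, and_true]
      omega
    · intro a ha c hc
      simp only [List.mem_cons, List.not_mem_nil, or_false] at hc
      rcases L_mem ha with h1 | ⟨i, hi, rfl⟩ <;> rcases hc with rfl | rfl <;> omega

theorem integral_ω (n : ℕ) (hn : 2 ≤ n) : integral (2 * n) (cls (2 * n) (zω n hn) ^ n) ≠ 0 := by
  rw [← map_pow, integral_cls]
  let q : ℕ → Ev (2 * n) := fun i =>
    ⟨sg i • (e (2 * n) i * e (2 * n) (2 * n - 1 - i)), by
      change inv _ _ = _
      rw [map_smul, inv_ee]⟩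
  have hq : ∀ i, q i * q i = 0 := by
    intro i
    apply Subtype.ext
    change sg i • (e (2 * n) i * e (2 * n) (2 * n - 1 - i)) *
      sg i • (e (2 * n) i * e (2 * n) (2 * n - 1 - i)) = 0
    rw [smul_mul_smul_comm]
    have : (e (2 * n) i * e (2 * n) (2 * n - 1 - i)) * (e (2 * n) i * e (2 * n) (2 * n - 1 - i))
        = e (2 * n) i * (e (2 * n) (2 * n - 1 - i) * e (2 * n) i) * e (2 * n) (2 * n - 1 - i) := by
      noncomm_ring
    rw [this, e_comm (2 * n - 1 - i) i]
    have : e (2 * n) i * -(e (2 * n) i * e (2 * n) (2 * n - 1 - i)) * e (2 * n) (2 * n - 1 - i) =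
      -((e (2 * n) i * e (2 * n) i) * (e (2 * n) (2 * n - 1 - i) * e (2 * n) (2 * n - 1 - i))) := by
      noncomm_ring
    rw [this, e_mul_e]
    simp
  have h1 : ((zω n hn ^ n : Closed (2 * n)) : Forms (2 * n)) =
      (((∑ i ∈ Finset.range n, q i) ^ n : Ev (2 * n)) : Forms (2 * n)) := by
    have h2 : ((∑ i ∈ Finset.range n, q i : Ev (2 * n)) : Forms (2 * n)) = ωf n := by
      rw [ωf, AddSubmonoidClass.coe_finsetSum]
    rw [SubmonoidClass.coe_pow, SubmonoidClass.coe_pow, h2]
    rfl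
  have h3 : ∀ m, ((∏ i ∈ Finset.range m, q i : Ev (2 * n)) : Forms (2 * n)) =
      (∏ i ∈ Finset.range m, sg i) • mono (2 * n) (L (2 * n) m) := by
    intro m
    induction m with
    | zero => simp [L]
    | succ m ih =>
      rw [Finset.prod_range_succ, Finset.prod_range_succ, L, mono_append]
      have h4 : ((∏ i ∈ Finset.range m, q i) * q m : Ev (2 * n)) =
        ((∏ i ∈ Finset.range m, q i : Ev (2 * n)) : Forms (2 * n)) * (q m : Forms (2 * n)) := rfl
      rw [h4, ih]
      change _ * (sg m • (e (2 * n) m * e (2 * n) (2 * n - 1 - m))) = _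
      rw [smul_mul_smul_comm, mono_cons, mono_cons, mono_nil, mul_one]
  rw [h1, (sum_pow_sq_zero q hq n).1]
  have h4 : (((n.factorial : Ev (2 * n)) * ∏ i ∈ Finset.range n, q i : Ev (2 * n)) :
      Forms (2 * n)) = (n.factorial : ℂ) •
      ((∏ i ∈ Finset.range n, q i : Ev (2 * n)) : Forms (2 * n)) := by
    rw [Algebra.smul_def]
    rw [map_natCast]
    rfl
  rw [h4, h3, map_smul, map_smul, smul_eq_mul, smul_eq_mul]
  refine mul_ne_zero (by exact_mod_cast n.factorial_ne_zero)
    (mul_ne_zero (Finset.prod_ne_zero_iff.2 fun i _ => sg_ne i) ?_)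
  refine top_mono (L_length _ _) (L_nodup le_rfl) fun k hk => ?_
  rcases L_mem hk with h | ⟨i, hi, rfl⟩ <;> omega

end Pool.Agent.Y348.GW
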